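import Pool.Agent.Helper767.Niche.Lower

/-!
# A graph with niche number three

The graph on eight vertices made of a 4-cycle `0,1,2,3` and a complete graph on `4,5,6,7`, joined by
the perfect matching `i ~ i + 4`, has niche number exactly 3.
-/

set_option autoImplicit false

namespace Pool.Agent.Results.MP_e11724_co.NicheThree

/-- The digraph with arc relation `A` (`A x a` means that `x` preys on `a`) is acyclic: it has no
directed cycle, in particular no loop. -/
def Acyclic {V : Type} (A : V → V → Prop) : Prop := ∀ x, ¬ Relation.TransGen A x x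

/-- The niche graph of the digraph with arc relation `A`: two distinct vertices are adjacent if and
only if they have a common prey or a common predator. -/
def nicheGraph {V : Type} (A : V → V → Prop) : SimpleGraph V where
  Adj x y := x ≠ y ∧ ((∃ a, A x a ∧ A y a) ∨ (∃ b, A b x ∧ A b y))
  symm := ⟨fun _ _ h => ⟨h.1.symm, h.2.imp (fun ⟨a, h1, h2⟩ => ⟨a, h2, h1⟩)
    (fun ⟨b, h1, h2⟩ => ⟨b, h2, h1⟩)⟩⟩
  loopless := ⟨fun _ h => h.1 rfl⟩

/-- A graph is a niche graph if it is isomorphic to the niche graph of some acyclic digraph. -/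
def IsNicheGraph {V : Type} (G : SimpleGraph V) : Prop :=
  ∃ (W : Type) (A : W → W → Prop), Acyclic A ∧ Nonempty (G ≃g nicheGraph A)

/-- The disjoint union of `G` with `k` isolated vertices. -/
def addIsolated {V : Type} (G : SimpleGraph V) (k : ℕ) : SimpleGraph (V ⊕ Fin k) :=
  G ⊕g (⊥ : SimpleGraph (Fin k))

/-- The niche number: the least `k` such that `G` together with `k` isolated vertices is a niche
graph, and `∞` if there is no such `k`. -/
noncomputable def nicheNumber {V : Type} (G : SimpleGraph V) : ℕ∞ :=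
  ⨅ k ∈ {k : ℕ | IsNicheGraph (addIsolated G k)}, (k : ℕ∞)

/-- The example: a 4-cycle on `0,1,2,3`, a complete graph on `4,5,6,7` and the perfect matching
`i ~ i + 4`. -/
def exampleGraph : SimpleGraph (Fin 8) where
  Adj u v := Helper767.NicheLower.adjB u.val v.val = true
  symm := ⟨by decide +kernel⟩
  loopless := ⟨by decide +kernel⟩

/-- Position of a vertex of `Fin 8 ⊕ Fin k` among the natural numbers. -/
def code {k : ℕ} : Fin 8 ⊕ Fin k → ℕ
  | Sum.inl i => i.val
  | Sum.inr j => 8 + j.val

theorem code_inj {k : ℕ} {x y : Fin 8 ⊕ Fin k} (h : code x = code y) : x = y := by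
  rcases x with x | x <;> rcases y with y | y <;> simp only [code] at h
  · exact congrArg Sum.inl (Fin.ext h)
  · exact absurd h (by have := x.isLt; omega)
  · exact absurd h (by have := y.isLt; omega)
  · exact congrArg Sum.inr (Fin.ext (by omega))

theorem code_lt {k : ℕ} (x : Fin 8 ⊕ Fin k) : code x < 8 + k := by
  rcases x with x | x <;> simp only [code]
  · have := x.isLt; omega
  · have := x.isLt; omega

theorem adj_iff {k : ℕ} (x y : Fin 8 ⊕ Fin k) :
    (addIsolated exampleGraph k).Adj x y ↔ Helper767.NicheLower.adjB (code x) (code y) = true := by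
  rcases x with x | x <;> rcases y with y | y
  · rfl
  · simp [addIsolated, code, Helper767.NicheLower.adjB]
  · simp [addIsolated, code, Helper767.NicheLower.adjB]
  · simp [addIsolated, code, Helper767.NicheLower.adjB]

/-- With at most two isolated vertices the example is not a niche graph. -/
theorem not_niche {k : ℕ} (hk : k ≤ 2) : ¬ IsNicheGraph (addIsolated exampleGraph k) := by
  rintro ⟨W, A, hA, ⟨e⟩⟩
  have hadj : ∀ x y : Fin 8 ⊕ Fin k, Helper767.NicheLower.adjB (code x) (code y) = true ↔
      (e x ≠ e y ∧ ((∃ a, A (e x) a ∧ A (e y) a) ∨ (∃ b, A b (e x) ∧ A b (e y)))) := by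
    intro x y
    rw [← adj_iff, ← e.map_adj_iff]
    rfl
  refine Helper767.NicheLower.no_digraph
    (a := fun i j => ∃ x y : Fin 8 ⊕ Fin k, code x = i ∧ code y = j ∧ A (e x) (e y))
    (l := fun i j => ∃ x y : Fin 8 ⊕ Fin k, code x = i ∧ code y = j ∧
      Relation.TransGen A (e x) (e y)) ?_ ?_ ?_ ?_ ?_
  · rintro i ⟨x, y, hx, hy, h⟩
    have : x = y := code_inj (hx.trans hy.symm)
    subst this
    exact hA _ h
  · rintro i j ⟨x, y, hx, hy, h⟩
    exact ⟨x, y, hx, hy, Relation.TransGen.single h⟩
  · rintro i j m ⟨x, y, hx, hy, h⟩ ⟨y', z, hy', hz, h'⟩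
    have : y = y' := code_inj (hy.trans hy'.symm)
    subst this
    exact ⟨x, z, hx, hz, h.trans h'⟩
  · rintro u v - - huv hn i
    constructor
    · rintro ⟨⟨x, z, hx, hz, h⟩, ⟨y, z', hy, hz', h'⟩⟩
      have : z = z' := code_inj (hz.trans hz'.symm)
      subst this
      have h1 := (hadj x y).2 ⟨fun hxy => huv (by
        rw [← hx, ← hy, e.injective hxy]), Or.inl ⟨_, h, h'⟩⟩
      rw [hx, hy, hn] at h1
      exact absurd h1 (by decide)
    · rintro ⟨⟨z, x, hz, hx, h⟩, ⟨z', y, hz', hy, h'⟩⟩
      have : z = z' := code_inj (hz.trans hz'.symm)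
      subst this
      have h1 := (hadj x y).2 ⟨fun hxy => huv (by
        rw [← hx, ← hy, e.injective hxy]), Or.inr ⟨_, h, h'⟩⟩
      rw [hx, hy, hn] at h1
      exact absurd h1 (by decide)
  · intro u v huv
    have hu : u < 8 := by
      simp only [Helper767.NicheLower.adjB, Bool.and_eq_true, decide_eq_true_eq] at huv
      exact huv.1.1.1
    have hv : v < 8 := by
      simp only [Helper767.NicheLower.adjB, Bool.and_eq_true, decide_eq_true_eq] at huv
      exact huv.1.1.2
    have h1 := (hadj (Sum.inl ⟨u, hu⟩) (Sum.inl ⟨v, hv⟩)).1 huv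
    rcases h1.2 with ⟨a, ha, ha'⟩ | ⟨b, hb, hb'⟩
    · obtain ⟨z, rfl⟩ := e.surjective a
      exact ⟨code z, by have := code_lt z; omega, Or.inl ⟨⟨_, z, rfl, rfl, ha⟩, ⟨_, z, rfl, rfl, ha'⟩⟩⟩
    · obtain ⟨z, rfl⟩ := e.surjective b
      exact ⟨code z, by have := code_lt z; omega, Or.inr ⟨⟨z, _, rfl, rfl, hb⟩, ⟨z, _, rfl, rfl, hb'⟩⟩⟩

/-- The arcs of an acyclic digraph whose niche graph is the example with three isolated
vertices. -/
def arcs : List (ℕ × ℕ) :=
  [(0, 1), (0, 2), (1, 3), (1, 2), (3, 10), (2, 9), (4, 0), (4, 1), (5, 0), (5, 3), (7, 10), (6, 9),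
    (8, 4), (8, 5), (8, 7), (8, 6)]

/-- A topological rank. -/
def rank : List ℕ := [2, 3, 4, 4, 1, 1, 1, 1, 0, 5, 5]

/-- The arc relation. -/
def arcB (x y : Fin 8 ⊕ Fin 3) : Bool := arcs.contains (code x, code y)

theorem is_niche : IsNicheGraph (addIsolated exampleGraph 3) := by
  refine ⟨Fin 8 ⊕ Fin 3, fun x y => arcB x y = true, ?_, ⟨?_⟩⟩
  · have hr : ∀ x y : Fin 8 ⊕ Fin 3, arcB x y = true →
        rank.getD (code x) 0 < rank.getD (code y) 0 := by decide +kernel
    have ht : ∀ x y : Fin 8 ⊕ Fin 3, Relation.TransGen (fun x y => arcB x y = true) x y →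
        rank.getD (code x) 0 < rank.getD (code y) 0 := by
      intro x y h
      induction h with
      | single h => exact hr _ _ h
      | tail _ h ih => exact ih.trans (hr _ _ h)
    exact fun x h => lt_irrefl _ (ht x x h)
  · have hb : ∀ x y : Fin 8 ⊕ Fin 3,
        (x ≠ y ∧ ((∃ a, arcB x a = true ∧ arcB y a = true) ∨
          (∃ b, arcB b x = true ∧ arcB b y = true))) ↔
          Helper767.NicheLower.adjB (code x) (code y) = true := by decide +kernel
    exact { toEquiv := Equiv.refl _, map_rel_iff' := by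
              intro x y
              rw [adj_iff]
              exact hb x y }

theorem nicheNumber_exampleGraph : nicheNumber exampleGraph = 3 := by
  unfold nicheNumber
  apply le_antisymm
  · exact iInf₂_le_of_le 3 is_niche (by norm_num)
  · refine le_iInf₂ fun k hk => ?_
    by_contra hlt
    have hk2 : k ≤ 2 := by
      have h1 : (k : ℕ∞) < (3 : ℕ) := by simpa using hlt
      have h2 : k < 3 := by exact_mod_cast h1
      omega
    exact not_niche hk2 hk

/-- There is a graph with finite niche number exceeding two: a graph on eight vertices with niche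
number exactly three. -/
theorem result : ∃ G : SimpleGraph (Fin 8), nicheNumber G = 3 :=
  ⟨exampleGraph, nicheNumber_exampleGraph⟩

end Pool.Agent.Results.MP_e11724_co.NicheThree
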